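import Pool.Agent.Helper35.HC.StA

set_option autoImplicit false

/-!
# Project HC, module GRM: symmetric 2 x 2 matrices
-/

namespace Pool.Agent.Helper70.HC

open Helper35.HC Helper35.HSF Helper35.MS Helper35.PI Helper35.PI2 Helper32.CL

/-- **GRM**: symmetric `2 × 2` matrices -/
theorem hGRM : StGRM := by
  intro α g β' hα hg
  have hβ : 0 ≤ β' := by
    by_contra h
    push Not at h
    have := mul_neg_of_pos_of_neg hα h
    nlinarith [sq_nonneg g]
  obtain ⟨R, hR0, hR⟩ : ∃ R : ℝ, 0 ≤ R ∧ R ^ 2 = (α - β') ^ 2 / 4 + g ^ 2 :=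
    ⟨Real.sqrt ((α - β') ^ 2 / 4 + g ^ 2), Real.sqrt_nonneg _, Real.sq_sqrt (by positivity)⟩
  have h1 : |α - β'| / 2 ≤ R := by
    apply abs_le_of_sq_le_sq' _ hR0 |>.2
    rw [hR, div_pow, sq_abs]
    nlinarith [sq_nonneg g]
  have h2 : (α - β') / 2 ≤ R := by
    have := le_abs_self (α - β')
    linarith
  have h3 : (β' - α) / 2 ≤ R := by
    have := neg_abs_le (α - β')
    linarith
  have h4 : R ≤ (α + β') / 2 := by
    apply abs_le_of_sq_le_sq' _ (by linarith) |>.2
    rw [hR]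
    nlinarith
  obtain ⟨p, hp⟩ : ∃ p : ℝ, p = (α + β') / 2 + R := ⟨_, rfl⟩
  have hdet : (p - α) * (p - β') = g ^ 2 := by
    rw [hp]
    nlinarith
  have hpa : 0 ≤ p - α := by rw [hp]; linarith
  have hpb : 0 ≤ p - β' := by rw [hp]; linarith
  refine ⟨p, (α + β') / 2 - R, by linarith, by linarith, by linarith, by rw [hp]; ring, ?_, ?_, ?_⟩
  · rw [hp]
    nlinarith
  · intro m₁ m₂
    rcases eq_or_lt_of_le hpa with h0 | h0
    · have hg0 : g = 0 := by
        rw [← h0, zero_mul] at hdet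
        exact pow_eq_zero_iff (two_ne_zero) |>.1 hdet.symm
      have : p = α := by linarith
      rw [hg0]
      rw [this] at hpb ⊢
      nlinarith [mul_nonneg hpb (sq_nonneg m₂)]
    · have key : 0 ≤ (p - α) * ((p - α) * m₁ ^ 2 - 2 * g * m₁ * m₂ + (p - β') * m₂ ^ 2) := by
        have : (p - α) * ((p - α) * m₁ ^ 2 - 2 * g * m₁ * m₂ + (p - β') * m₂ ^ 2) =
            ((p - α) * m₁ - g * m₂) ^ 2 := by
          linear_combination m₂ ^ 2 * hdet
        rw [this]
        positivity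
      have := nonneg_of_mul_nonneg_right key h0
      linarith
  · by_cases h0 : g = 0 ∧ p = α
    · refine ⟨1, 0, by norm_num, ?_⟩
      rw [h0.2]
      ring
    · have hN : 0 < g ^ 2 + (p - α) ^ 2 := by
        rcases lt_or_eq_of_le (add_nonneg (sq_nonneg g) (sq_nonneg (p - α))) with h | h
        · exact h
        · exfalso
          apply h0
          have e1 : g ^ 2 = 0 := by nlinarith [sq_nonneg g, sq_nonneg (p - α)]
          have e2 : (p - α) ^ 2 = 0 := by nlinarith [sq_nonneg g, sq_nonneg (p - α)]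
          refine ⟨pow_eq_zero_iff (two_ne_zero) |>.1 e1, ?_⟩
          have := pow_eq_zero_iff (two_ne_zero) |>.1 e2
          linarith
      obtain ⟨N, hN0, hN2⟩ : ∃ N : ℝ, 0 < N ∧ N ^ 2 = g ^ 2 + (p - α) ^ 2 :=
        ⟨Real.sqrt (g ^ 2 + (p - α) ^ 2), Real.sqrt_pos.2 hN, Real.sq_sqrt hN.le⟩
      refine ⟨g / N, (p - α) / N, ?_, ?_⟩
      · rw [div_pow, div_pow, ← add_div, hN2, div_self hN.ne']
      · have hNe : N ≠ 0 := hN0.ne'
        field_simp
        rw [hN2]
        linear_combination (p - α) * hdet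

end Pool.Agent.Helper70.HC
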